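import Mathlib

set_option autoImplicit false

/-!
Arithmetic preliminaries for the DPRM theorem: binomial coefficients, factorials and products of
arithmetic progressions as explicit compositions of exponentials, quotients and remainders.
-/

namespace Pool.Agent.LibMRDP

open Finset

theorem digit_sum (u : ℕ) (hu : 0 < u) : ∀ (k m : ℕ) (f : ℕ → ℕ), (∀ i, f i < u) →
    (∑ i ∈ range m, f i * u ^ i) / u ^ k % u = if k < m then f k else 0 := by
  intro k
  induction k with
  | zero =>
    intro m f hf
    rcases m with _ | m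
    · simp
    · rw [Finset.sum_range_succ']
      simp only [pow_zero, Nat.div_one, mul_one]
      have : ∑ i ∈ range m, f (i + 1) * u ^ (i + 1) = u * ∑ i ∈ range m, f (i + 1) * u ^ i := by
        rw [Finset.mul_sum]
        apply Finset.sum_congr rfl
        intro i _
        ring
      rw [this, Nat.mul_add_mod]
      simp [Nat.mod_eq_of_lt (hf 0)]
  | succ k ih =>
    intro m f hf
    rcases m with _ | m
    · simp
    · have h1 : (∑ i ∈ range (m + 1), f i * u ^ i) / u = ∑ i ∈ range m, f (i + 1) * u ^ i := by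
        rw [Finset.sum_range_succ']
        have : ∑ i ∈ range m, f (i + 1) * u ^ (i + 1)
            = u * ∑ i ∈ range m, f (i + 1) * u ^ i := by
          rw [Finset.mul_sum]
          apply Finset.sum_congr rfl
          intro i _
          ring
        rw [this, pow_zero, mul_one, Nat.mul_add_div hu, Nat.div_eq_of_lt (hf 0), add_zero]
      rw [pow_succ', ← Nat.div_div_eq_div_mul, h1, ih m (fun i => f (i + 1)) (fun i => hf _)]
      simp

/-- binomial coefficients as digits -/
theorem choose_eq (n k : ℕ) :
    Nat.choose n k = ((2 ^ n + 2) ^ n / (2 ^ n + 1) ^ k) % (2 ^ n + 1) := by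
  have h := digit_sum (2 ^ n + 1) (by positivity) k (n + 1) (fun i => Nat.choose n i)
    (fun i => by
      have := Nat.choose_le_two_pow n i
      omega)
  have h2 : (∑ i ∈ range (n + 1), Nat.choose n i * (2 ^ n + 1) ^ i) = (2 ^ n + 2) ^ n := by
    have := add_pow (2 ^ n + 1) 1 n
    rw [show (2 ^ n + 2) = 2 ^ n + 1 + 1 by ring, this]
    apply Finset.sum_congr rfl
    intro i _
    simp
    ring
  rw [h2] at h
  rw [h]
  split_ifs with hk
  · rfl
  · exact Nat.choose_eq_zero_of_lt (by omega)

theorem desc_bound (r : ℕ) : ∀ k, r ^ (k + 1) ≤ r * r.descFactorial k + k ^ 2 * r ^ k := by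
  intro k
  induction k with
  | zero => simp
  | succ k ih =>
    rw [Nat.descFactorial_succ]
    rcases Nat.lt_or_ge r k with h | h
    · -- r < k
      have h1 : r ^ (k + 1 + 1) = r * r ^ (k + 1) := by ring
      have h2 : r * r ^ (k + 1) ≤ (k + 1) ^ 2 * r ^ (k + 1) := by
        apply Nat.mul_le_mul_right
        nlinarith
      calc r ^ (k + 1 + 1) ≤ (k + 1) ^ 2 * r ^ (k + 1) := h1 ▸ h2
        _ ≤ _ := Nat.le_add_left _ _
    · obtain ⟨s, hs⟩ := Nat.exists_eq_add_of_le h
      have h0 : r - k = s := by omega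
      rw [h0]
      have h1 : r ^ (k + 1 + 1) = k * r ^ (k + 1) + s * r ^ (k + 1) := by
        rw [← Nat.add_mul, ← hs]; ring
      have h2 : s * r ^ (k + 1) ≤ s * (r * r.descFactorial k + k ^ 2 * r ^ k) :=
        Nat.mul_le_mul_left _ ih
      have h3 : s * (k ^ 2 * r ^ k) ≤ k ^ 2 * r ^ (k + 1) := by
        have : s ≤ r := by omega
        calc s * (k ^ 2 * r ^ k) ≤ r * (k ^ 2 * r ^ k) := Nat.mul_le_mul_right _ this
          _ = k ^ 2 * r ^ (k + 1) := by ring
      calc r ^ (k + 1 + 1) = k * r ^ (k + 1) + s * r ^ (k + 1) := h1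
        _ ≤ k * r ^ (k + 1) + (s * (r * r.descFactorial k) + s * (k ^ 2 * r ^ k)) := by
          have : s * (r * r.descFactorial k + k ^ 2 * r ^ k)
            = s * (r * r.descFactorial k) + s * (k ^ 2 * r ^ k) := by ring
          omega
        _ ≤ k * r ^ (k + 1) + (s * (r * r.descFactorial k) + k ^ 2 * r ^ (k + 1)) := by omega
        _ ≤ r * (s * r.descFactorial k) + (k + 1) ^ 2 * r ^ (k + 1) := by
          have e1 : s * (r * r.descFactorial k) = r * (s * r.descFactorial k) := by ring
          have e2 : (k + 1) ^ 2 * r ^ (k + 1)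
            = k * r ^ (k + 1) + k ^ 2 * r ^ (k + 1) + (k + 1) * r ^ (k + 1) := by ring
          omega

/-- factorials as quotients -/
theorem factorial_eq (n : ℕ) :
    Nat.factorial n = ((n ^ n + 1) * n ^ 2 + 1) ^ n / Nat.choose ((n ^ n + 1) * n ^ 2 + 1) n := by
  set r := (n ^ n + 1) * n ^ 2 + 1 with hr
  have hn_le : n ≤ r := by
    rw [hr]
    rcases n with _ | n
    · simp
    · have : (n + 1) ≤ (n + 1) ^ 2 := by nlinarith
      have h2 : (n + 1) ^ 2 ≤ ((n + 1) ^ (n + 1) + 1) * (n + 1) ^ 2 :=
        Nat.le_mul_of_pos_left _ (by positivity)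
      omega
  have hpos : 0 < Nat.choose r n := Nat.choose_pos hn_le
  symm
  rw [Nat.div_eq_iff hpos]
  have hdesc : r.descFactorial n = Nat.factorial n * Nat.choose r n :=
    Nat.descFactorial_eq_factorial_mul_choose r n
  have hle : Nat.factorial n * Nat.choose r n ≤ r ^ n := by
    rw [← hdesc]; exact Nat.descFactorial_le_pow r n
  refine ⟨by simpa using hle, ?_⟩
  -- upper bound
  have hfac : Nat.factorial n ≤ n ^ n := Nat.factorial_le_pow n
  have hb := desc_bound r n
  -- r * r^n < r * (n!+1) * choose
  have key : r ^ n < (Nat.factorial n + 1) * Nat.choose r n := by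
    have hfpos : 0 < Nat.factorial n := Nat.factorial_pos n
    have hrpos : 0 < r := by omega
    have hrn : 0 < r ^ n := by positivity
    -- multiply by `n! * r`
    have h1 : Nat.factorial n * (r * r ^ n)
        < (Nat.factorial n + 1) * (r * r.descFactorial n) := by
      have h2 : (Nat.factorial n + 1) * n ^ 2 < r := by
        have : (Nat.factorial n + 1) * n ^ 2 ≤ (n ^ n + 1) * n ^ 2 :=
          Nat.mul_le_mul_right _ (by omega)
        omega
      have h3 : (Nat.factorial n + 1) * (r ^ (n + 1)) ≤
          (Nat.factorial n + 1) * (r * r.descFactorial n + n ^ 2 * r ^ n) :=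
        Nat.mul_le_mul_left _ hb
      have h4 : (Nat.factorial n + 1) * n ^ 2 * r ^ n < r * r ^ n :=
        Nat.mul_lt_mul_of_pos_right h2 hrn
      have e1 : (Nat.factorial n + 1) * (r ^ (n + 1))
          = Nat.factorial n * (r * r ^ n) + r * r ^ n := by ring
      have e2 : (Nat.factorial n + 1) * (r * r.descFactorial n + n ^ 2 * r ^ n)
          = (Nat.factorial n + 1) * (r * r.descFactorial n)
            + (Nat.factorial n + 1) * n ^ 2 * r ^ n := by ring
      omega
    rw [hdesc] at h1
    have e3 : (Nat.factorial n + 1) * (r * (Nat.factorial n * Nat.choose r n))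
        = Nat.factorial n * (r * ((Nat.factorial n + 1) * Nat.choose r n)) := by ring
    rw [e3] at h1
    have h5 := Nat.lt_of_mul_lt_mul_left h1
    exact Nat.lt_of_mul_lt_mul_left h5
  have : (Nat.factorial n + 1) * Nat.choose r n
      = Nat.factorial n * Nat.choose r n + Nat.choose r n := by ring
  omega

/-- the product of the moduli, as a remainder -/
theorem prod_eq (y t : ℕ) (ht : 0 < t) :
    ∏ k ∈ range y, (1 + (k + 1) * t) =
      (t ^ y * (Nat.factorial y * Nat.choose (t * ((1 + y * t) ^ y) ^ 2 + y) y))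
        % (t * (1 + y * t) ^ y + 1) := by
  set K := (1 + y * t) ^ y with hK
  set M := t * K + 1 with hM
  set q := t * K ^ 2 with hq
  have hqt : t * q ≡ 1 [MOD M] := by
    have e : t * q = (t * K) * (t * K) := by rw [hq]; ring
    rw [e]
    have h1 : t * K + 1 ≡ 0 [MOD M] := by
      rw [← hM]; exact (Nat.modEq_zero_iff_dvd.2 dvd_rfl)
    -- (tK)^2 - 1 = (tK+1)(tK-1)
    have hKpos : 0 < K := by positivity
    have h2 : 1 ≤ t * K := Nat.one_le_iff_ne_zero.2 (by positivity)
    obtain ⟨c, hc⟩ := Nat.exists_eq_add_of_le h2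
    have : (t * K) * (t * K) = 1 + M * c := by
      rw [hM, hc]; ring
    rw [this]
    exact (Nat.ModEq.symm (by simp [Nat.ModEq]))
  have hprod_le : ∏ k ∈ range y, (1 + (k + 1) * t) ≤ K := by
    calc ∏ k ∈ range y, (1 + (k + 1) * t) ≤ ∏ _k ∈ range y, (1 + y * t) := by
          apply Finset.prod_le_prod'
          intro k hk
          have := Finset.mem_range.1 hk
          have : (k + 1) * t ≤ y * t := Nat.mul_le_mul_right _ this
          omega
      _ = K := by simp [hK]
  have hlt : ∏ k ∈ range y, (1 + (k + 1) * t) < M := by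
    have : K ≤ t * K := Nat.le_mul_of_pos_left _ ht
    omega
  rw [← Nat.ascFactorial_eq_factorial_mul_choose]
  have hmod : ∀ z, t ^ z * (q + 1).ascFactorial z ≡ ∏ k ∈ range z, (1 + (k + 1) * t) [MOD M] := by
    intro z
    induction z with
    | zero => simp [Nat.ModEq]
    | succ z ih =>
      rw [Finset.prod_range_succ, Nat.ascFactorial_succ]
      have e : t ^ (z + 1) * ((q + 1 + z) * (q + 1).ascFactorial z)
          = (t ^ z * (q + 1).ascFactorial z) * (t * q + (z + 1) * t) := by ring
      rw [e]
      exact ih.mul (hqt.add_right _)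
  have := hmod y
  rw [Nat.ModEq, Nat.mod_eq_of_lt hlt] at this
  exact this.symm

end Pool.Agent.LibMRDP
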