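import Mathlib
import Pool.Agent.LibMRDP.Arith

set_option autoImplicit false

/-!
Diophantine sets are closed under bounded universal quantification.
-/

namespace Pool.Agent.LibMRDP

open Finset Dioph

section fns

variable {α : Type} {f g : (α → ℕ) → ℕ}

theorem cst (n : ℕ) : DiophFn (fun _ : α → ℕ => n) := const_dioph n

theorem choose_dioph (df : DiophFn f) (dg : DiophFn g) :
    DiophFn fun v => Nat.choose (f v) (g v) := by
  have h2 : DiophFn (fun v : α → ℕ => 2 ^ f v) := pow_dioph (cst 2) df
  have h3 : DiophFn (fun v : α → ℕ => 2 ^ f v + 1) := add_dioph h2 (cst 1)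
  have h4 : DiophFn (fun v : α → ℕ => 2 ^ f v + 2) := add_dioph h2 (cst 2)
  have h5 := mod_dioph (div_dioph (pow_dioph h4 df) (pow_dioph h3 dg)) h3
  simp only [choose_eq]
  exact h5

theorem factorial_dioph (df : DiophFn f) : DiophFn fun v => Nat.factorial (f v) := by
  have h1 : DiophFn (fun v : α → ℕ => (f v ^ f v + 1) * f v ^ 2 + 1) :=
    add_dioph (mul_dioph (add_dioph (pow_dioph df df) (cst 1)) (pow_dioph df (cst 2))) (cst 1)
  have h2 := div_dioph (pow_dioph h1 df) (choose_dioph h1 df)
  have h3 : (fun v => Nat.factorial (f v)) = fun v => ((f v ^ f v + 1) * f v ^ 2 + 1) ^ f v /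
      Nat.choose ((f v ^ f v + 1) * f v ^ 2 + 1) (f v) := by
    funext v
    exact factorial_eq (f v)
  rw [h3]
  exact h2

theorem descFactorial_dioph (df : DiophFn f) (dg : DiophFn g) :
    DiophFn fun v => Nat.descFactorial (f v) (g v) := by
  simp only [Nat.descFactorial_eq_factorial_mul_choose]
  exact mul_dioph (factorial_dioph dg) (choose_dioph df dg)

/-- the product `∏ k < y, (1 + (k+1) t)`, for positive `t` -/
def prodFn (y t : ℕ) : ℕ :=
  (t ^ y * (Nat.factorial y * Nat.choose (t * ((1 + y * t) ^ y) ^ 2 + y) y))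
    % (t * (1 + y * t) ^ y + 1)

theorem prodFn_dioph (df : DiophFn f) (dg : DiophFn g) : DiophFn fun v => prodFn (f v) (g v) := by
  have h1 : DiophFn (fun v : α → ℕ => (1 + f v * g v) ^ f v) :=
    pow_dioph (add_dioph (cst 1) (mul_dioph df dg)) df
  exact mod_dioph (mul_dioph (pow_dioph dg df) (mul_dioph (factorial_dioph df)
    (choose_dioph (add_dioph (mul_dioph dg (pow_dioph h1 (cst 2))) df) df)))
    (add_dioph (mul_dioph dg h1) (cst 1))

end fns

/-! ### Polynomials -/

section poly

variable {γ : Type}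

/-- a polynomial function depends on finitely many variables -/
theorem poly_support (p : Poly γ) :
    ∃ s : Finset γ, ∀ x y : γ → ℕ, (∀ i ∈ s, x i = y i) → p x = p y := by
  classical
  induction p using Poly.induction with
  | H1 i => exact ⟨{i}, fun x y h => by simp [h i (by simp)]⟩
  | H2 n => exact ⟨∅, fun x y _ => by simp⟩
  | H3 f g hf hg =>
    obtain ⟨s, hs⟩ := hf
    obtain ⟨t, ht⟩ := hg
    exact ⟨s ∪ t, fun x y h => by
      simp only [Poly.sub_apply]
      rw [hs x y fun i hi => h i (Finset.mem_union_left _ hi),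
        ht x y fun i hi => h i (Finset.mem_union_right _ hi)]⟩
  | H4 f g hf hg =>
    obtain ⟨s, hs⟩ := hf
    obtain ⟨t, ht⟩ := hg
    exact ⟨s ∪ t, fun x y h => by
      simp only [Poly.mul_apply]
      rw [hs x y fun i hi => h i (Finset.mem_union_left _ hi),
        ht x y fun i hi => h i (Finset.mem_union_right _ hi)]⟩

/-- a monotone majorant -/
theorem poly_major (p : Poly γ) :
    ∃ q : Poly γ, (∀ x, |p x| ≤ q x) ∧ ∀ x y : γ → ℕ, (∀ i, x i ≤ y i) → q x ≤ q y := by
  induction p using Poly.induction with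
  | H1 i => exact ⟨Poly.proj i, fun x => by simp, fun x y h => by simpa using h i⟩
  | H2 n => exact ⟨Poly.const |n|, fun x => by simp, fun x y h => by simp⟩
  | H3 f g hf hg =>
    obtain ⟨F, hF1, hF2⟩ := hf
    obtain ⟨G, hG1, hG2⟩ := hg
    refine ⟨F + G, fun x => ?_, fun x y h => ?_⟩
    · simp only [Poly.sub_apply, Poly.add_apply]
      exact (abs_sub _ _).trans (add_le_add (hF1 x) (hG1 x))
    · simp only [Poly.add_apply]
      exact add_le_add (hF2 x y h) (hG2 x y h)
  | H4 f g hf hg =>
    obtain ⟨F, hF1, hF2⟩ := hf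
    obtain ⟨G, hG1, hG2⟩ := hg
    refine ⟨F * G, fun x => ?_, fun x y h => ?_⟩
    · simp only [Poly.mul_apply, abs_mul]
      exact mul_le_mul (hF1 x) (hG1 x) (abs_nonneg _) ((abs_nonneg _).trans (hF1 x))
    · simp only [Poly.mul_apply]
      exact mul_le_mul (hF2 x y h) (hG2 x y h) ((abs_nonneg _).trans (hG1 x))
        ((abs_nonneg _).trans (hF1 y))

/-- polynomials respect congruences -/
theorem poly_modEq (p : Poly γ) (n : ℕ) (x y : γ → ℕ) (h : ∀ i, x i ≡ y i [MOD n]) :
    p x ≡ p y [ZMOD n] := by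
  induction p using Poly.induction with
  | H1 i => simpa using (Int.natCast_modEq_iff.2 (h i))
  | H2 n => simp [Int.ModEq]
  | H3 f g hf hg => simpa using hf.sub hg
  | H4 f g hf hg => simpa using hf.mul hg

end poly

theorem prod_dvd_of_pairwise (m : ℕ → ℕ) (z : ℕ) : ∀ y : ℕ,
    (∀ i < y, ∀ j < y, i ≠ j → Nat.Coprime (m i) (m j)) → (∀ i < y, m i ∣ z) →
    ∏ k ∈ range y, m k ∣ z := by
  intro y
  induction y with
  | zero => simp
  | succ y ih =>
    intro h1 h2
    rw [Finset.prod_range_succ]
    apply Nat.Coprime.mul_dvd_of_dvd_of_dvd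
    · apply Nat.Coprime.prod_left
      intro i hi
      have := Finset.mem_range.1 hi
      exact h1 i (by omega) y (by omega) (by omega)
    · exact ih (fun i hi j hj => h1 i (by omega) j (by omega)) fun i hi => h2 i (by omega)
    · exact h2 y (by omega)

/-- the moduli are pairwise coprime -/
theorem moduli_coprime {y t : ℕ} (ht : ∀ d, 0 < d → d ≤ y → d ∣ t) :
    ∀ i < y, ∀ j < y, i ≠ j → Nat.Coprime (1 + (i + 1) * t) (1 + (j + 1) * t) := by
  have key : ∀ i j, i < j → j < y → Nat.Coprime (1 + (i + 1) * t) (1 + (j + 1) * t) := by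
    intro i j hij hj
    have h := @Nat.coprime_mul_succ (i + 1) (j + 1) t (by
      have : j + 1 - (i + 1) = j - i := by omega
      rw [this]
      exact ht _ (by omega) (by omega))
    rw [add_comm 1, add_comm 1]
    exact h
  intro i hi j hj hij
  rcases lt_or_gt_of_ne hij with h | h
  · exact key i j h hj
  · exact (key j i h hi).symm

/-- The arithmetic heart: elimination of a bounded universal quantifier. -/
theorem bounded_forall_iff {α β : Type} [Finite β] (p : Poly (Option α ⊕ β)) (P : Poly (Option α ⊕ β))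
    (hP1 : ∀ x, |p x| ≤ P x) (hP2 : ∀ x y : Option α ⊕ β → ℕ, (∀ i, x i ≤ y i) → P x ≤ P y)
    (y : ℕ) (hy : 0 < y) (v : α → ℕ) :
    (∀ k < y, ∃ t : β → ℕ, p (Sum.elim (Option.elim' k v) t) = 0) ↔
      ∃ (u c : ℕ) (a : β → ℕ),
        1 + (c + 1) * Nat.factorial
            ((P (Sum.elim (Option.elim' y v) fun _ => u)).natAbs + y + u + 1)
          = prodFn y (Nat.factorial
            ((P (Sum.elim (Option.elim' y v) fun _ => u)).natAbs + y + u + 1)) ∧
        (∀ i, 1 + (c + 1) * Nat.factorial
            ((P (Sum.elim (Option.elim' y v) fun _ => u)).natAbs + y + u + 1)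
          ∣ Nat.descFactorial (a i) (u + 1)) ∧
        1 + (c + 1) * Nat.factorial
            ((P (Sum.elim (Option.elim' y v) fun _ => u)).natAbs + y + u + 1)
          ∣ (p (Sum.elim (Option.elim' c v) a)).natAbs := by
  classical
  constructor
  · intro h
    choose! t ht using h
    -- the bound
    obtain ⟨u, hu⟩ : ∃ u, ∀ k < y, ∀ i, t k i ≤ u := by
      have hfin : Set.Finite (Set.image2 (fun k i => t k i) {k | k < y} Set.univ) :=
        Set.Finite.image2 _ (Set.finite_lt_nat y) Set.finite_univ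
      obtain ⟨u, hu⟩ := hfin.bddAbove
      exact ⟨u, fun k hk i => hu ⟨k, hk, i, Set.mem_univ _, rfl⟩⟩
    set Q := (P (Sum.elim (Option.elim' y v) fun _ => u)).natAbs + y + u + 1 with hQ
    set T := Nat.factorial Q with hT
    have hTpos : 0 < T := Nat.factorial_pos _
    have hdvd : ∀ d, 0 < d → d ≤ Q → d ∣ T := fun d h1 h2 => Nat.dvd_factorial h1 h2
    have hcop := moduli_coprime (y := y) (t := T) fun d h1 h2 => hdvd d h1 (by omega)
    have hcoT : ∀ k, Nat.Coprime (1 + (k + 1) * T) T := by
      intro k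
      rw [Nat.coprime_add_mul_right_left]
      exact Nat.coprime_one_left T
    have hMdef : ∏ k ∈ range y, (1 + (k + 1) * T) = prodFn y T := prod_eq y T hTpos
    -- the product is 1 mod T
    obtain ⟨c', hc'⟩ : ∃ c', ∏ k ∈ range y, (1 + (k + 1) * T) = 1 + c' * T := by
      have : ∀ z, ∃ c', ∏ k ∈ range z, (1 + (k + 1) * T) = 1 + c' * T := by
        intro z
        induction z with
        | zero => exact ⟨0, by simp⟩
        | succ z ih =>
          obtain ⟨c', hc'⟩ := ih
          refine ⟨c' + (1 + c' * T) * (z + 1), ?_⟩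
          rw [Finset.prod_range_succ, hc']
          ring
      exact this y
    have hc'pos : c' ≠ 0 := by
      rintro rfl
      obtain ⟨y', rfl⟩ : ∃ y', y = y' + 1 := ⟨y - 1, by omega⟩
      rw [Finset.prod_range_succ'] at hc'
      have h1 : 1 + (0 + 1) * T = 1 := by
        have : (1 + (0 + 1) * T) ∣ 1 := by
          have := Dvd.intro_left _ hc'
          simpa using this
        exact Nat.dvd_one.1 this
      omega
    obtain ⟨c, hc⟩ : ∃ c, c' = c + 1 := ⟨c' - 1, by omega⟩
    subst hc
    -- chinese remainder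
    have hcr : ∀ i : β, ∃ a : ℕ, ∀ k < y, a ≡ t k i [MOD (1 + (k + 1) * T)] := by
      intro i
      have := Nat.chineseRemainderOfFinset (fun k => t k i) (fun k => 1 + (k + 1) * T) (range y)
        (by intro k _; omega)
        (by
          intro k hk l hl hkl
          exact hcop k (by simpa using hk) l (by simpa using hl) hkl)
      exact ⟨this.1, fun k hk => this.2 k (by simpa using hk)⟩
    choose a ha using hcr
    refine ⟨u, c, a, ?_, ?_, ?_⟩
    · rw [← hMdef, hc']
    · intro i
      rw [← hc']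
      apply prod_dvd_of_pairwise _ _ _ hcop
      intro k hk
      rcases Nat.lt_or_ge (a i) (u + 1) with h | h
      · rw [Nat.descFactorial_of_lt h]
        exact dvd_zero _
      · have h1 : t k i ≤ a i := (hu k hk i).trans (by omega)
        have h2 : (1 + (k + 1) * T) ∣ a i - t k i :=
          (Nat.modEq_iff_dvd' h1).1 (ha i k hk).symm
        refine h2.trans ?_
        rw [Nat.descFactorial_eq_prod_range]
        exact Finset.dvd_prod_of_mem _ (Finset.mem_range.2 (by have := hu k hk i; omega))
    · rw [← hc']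
      apply prod_dvd_of_pairwise _ _ _ hcop
      intro k hk
      have hck : c ≡ k [MOD (1 + (k + 1) * T)] := by
        have h1 : (1 + (k + 1) * T) ∣ 1 + (c + 1) * T := by
          rw [← hc']
          exact Finset.dvd_prod_of_mem (fun k => 1 + (k + 1) * T) (Finset.mem_range.2 hk)
        have h2 : 1 + (c + 1) * T ≡ 1 + (k + 1) * T [MOD (1 + (k + 1) * T)] :=
          ((Nat.modEq_zero_iff_dvd.2 h1).trans (Nat.modEq_zero_iff_dvd.2 dvd_rfl).symm)
        have h3 : (c + 1) * T ≡ (k + 1) * T [MOD (1 + (k + 1) * T)] :=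
          Nat.ModEq.add_left_cancel' 1 h2
        have h4 : c + 1 ≡ k + 1 [MOD (1 + (k + 1) * T)] :=
          Nat.ModEq.cancel_right_of_coprime (hcoT k) h3
        exact Nat.ModEq.add_right_cancel' 1 h4
      have h5 : p (Sum.elim (Option.elim' c v) a) ≡ p (Sum.elim (Option.elim' k v) (t k))
          [ZMOD ((1 + (k + 1) * T : ℕ) : ℤ)] := by
        apply poly_modEq
        rintro ((_ | i) | i)
        · exact hck
        · exact Nat.ModEq.refl _
        · exact ha i k hk
      rw [ht k hk] at h5
      exact Int.natCast_dvd.1 (Int.modEq_zero_iff_dvd.1 h5)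
  · rintro ⟨u, c, a, h1, h2, h3⟩ k hk
    set Q := (P (Sum.elim (Option.elim' y v) fun _ => u)).natAbs + y + u + 1 with hQ
    set T := Nat.factorial Q with hT
    have hTpos : 0 < T := Nat.factorial_pos _
    have hMdef : ∏ k ∈ range y, (1 + (k + 1) * T) = prodFn y T := prod_eq y T hTpos
    rw [← hMdef] at h1
    have hm : (1 + (k + 1) * T) ∣ 1 + (c + 1) * T := by
      rw [h1]
      exact Finset.dvd_prod_of_mem (fun k => 1 + (k + 1) * T) (Finset.mem_range.2 hk)
    obtain ⟨q, hq, hqm⟩ := Nat.exists_prime_and_dvd (n := 1 + (k + 1) * T) (by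
      have : 0 < (k + 1) * T := by positivity
      omega)
    have hqM : q ∣ 1 + (c + 1) * T := hqm.trans hm
    have hqT : ¬ q ∣ T := by
      intro h
      have : q ∣ 1 := (Nat.dvd_add_left (h.mul_left (k + 1))).1 hqm
      exact hq.one_lt.ne' (Nat.dvd_one.1 this)
    have hqQ : Q < q := by
      by_contra hcon
      exact hqT (Nat.dvd_factorial hq.pos (by omega))
    have hcop : Nat.Coprime q T := (Nat.Prime.coprime_iff_not_dvd hq).2 hqT
    have hck : c ≡ k [MOD q] := by
      have h4 : 1 + (c + 1) * T ≡ 1 + (k + 1) * T [MOD q] :=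
        ((Nat.modEq_zero_iff_dvd.2 hqM).trans (Nat.modEq_zero_iff_dvd.2 hqm).symm)
      have h5 : (c + 1) * T ≡ (k + 1) * T [MOD q] := Nat.ModEq.add_left_cancel' 1 h4
      have h6 : c + 1 ≡ k + 1 [MOD q] := Nat.ModEq.cancel_right_of_coprime hcop h5
      exact Nat.ModEq.add_right_cancel' 1 h6
    have hr : ∀ i, a i % q ≤ u := by
      intro i
      have h4 : q ∣ Nat.descFactorial (a i) (u + 1) := hqM.trans (h2 i)
      rw [Nat.descFactorial_eq_prod_range] at h4
      obtain ⟨j, hj, hj'⟩ := (Prime.dvd_finsetProd_iff hq.prime _).1 h4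
      have hj1 : j ≤ u := by
        have := Finset.mem_range.1 hj
        omega
      rcases Nat.lt_or_ge (a i) j with h | h
      · exact (Nat.mod_le _ _).trans (by omega)
      · have h5 : j ≡ a i [MOD q] := (Nat.modEq_iff_dvd' h).2 hj'
        have h6 : a i % q = j := by
          rw [← h5]
          exact Nat.mod_eq_of_lt (by omega)
        omega
    refine ⟨fun i => a i % q, ?_⟩
    have h7 : p (Sum.elim (Option.elim' k v) fun i => a i % q)
        ≡ p (Sum.elim (Option.elim' c v) a) [ZMOD (q : ℤ)] := by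
      apply poly_modEq
      rintro ((_ | i) | i)
      · exact hck.symm
      · exact Nat.ModEq.refl _
      · exact Nat.mod_modEq _ _
    have h8 : (q : ℤ) ∣ p (Sum.elim (Option.elim' c v) a) :=
      Int.natCast_dvd.2 (hqM.trans h3)
    have h9 : (q : ℤ) ∣ p (Sum.elim (Option.elim' k v) fun i => a i % q) :=
      (Int.modEq_zero_iff_dvd.1 (h7.trans (Int.modEq_zero_iff_dvd.2 h8)))
    apply Int.eq_zero_of_abs_lt_dvd h9
    have h10 : |p (Sum.elim (Option.elim' k v) fun i => a i % q)| ≤
        P (Sum.elim (Option.elim' y v) fun _ => u) := by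
      refine (hP1 _).trans (hP2 _ _ ?_)
      rintro ((_ | i) | i)
      · exact hk.le
      · exact le_rfl
      · exact hr i
    have h11 : P (Sum.elim (Option.elim' y v) fun _ => u) ≤
        ((P (Sum.elim (Option.elim' y v) fun _ => u)).natAbs : ℤ) := Int.le_natAbs
    have h12 : ((P (Sum.elim (Option.elim' y v) fun _ => u)).natAbs : ℤ) < (q : ℤ) := by
      exact_mod_cast (by omega : (P (Sum.elim (Option.elim' y v) fun _ => u)).natAbs < q)
    omega

/-- finite conjunctions -/
theorem forall_fin_dioph {α ι : Type} [Finite ι] {S : ι → Set (α → ℕ)} (h : ∀ i, Dioph (S i)) :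
    Dioph {v | ∀ i, v ∈ S i} := by
  classical
  cases nonempty_fintype ι
  have h1 := DiophList.forall (α := α) ((Finset.univ : Finset ι).toList.map S)
    (List.forall_iff_forall_mem.2 (by
      intro x hx
      obtain ⟨i, -, rfl⟩ := List.mem_map.1 hx
      exact h i))
  refine Dioph.ext h1 fun v => ?_
  simp only [Set.mem_ofPred_eq, List.forall_iff_forall_mem]
  constructor
  · intro H i
    exact H _ (List.mem_map.2 ⟨i, by simp, rfl⟩)
  · intro H x hx
    obtain ⟨i, -, rfl⟩ := List.mem_map.1 hx
    exact H i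

/-- the dummies may be taken from a finite type -/
theorem finite_dummies {α : Type} {S : Set (α → ℕ)} (d : Dioph S) :
    ∃ (β : Type) (_ : Finite β) (p : Poly (α ⊕ β)), ∀ v, v ∈ S ↔ ∃ t, p (Sum.elim v t) = 0 := by
  classical
  obtain ⟨β, p, hp⟩ := d
  obtain ⟨s, hs⟩ := poly_support p
  by_cases hne : Nonempty (α ⊕ PUnit.{1})
  swap
  · exact absurd ⟨Sum.inr PUnit.unit⟩ hne
  -- the finite set of dummies that matter, together with one extra dummy
  let B : Type := Option {b : β // Sum.inr b ∈ s}
  let g : α ⊕ β → α ⊕ B := fun x => match x with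
    | Sum.inl a => Sum.inl a
    | Sum.inr b => if h : Sum.inr b ∈ s then Sum.inr (some ⟨b, h⟩) else Sum.inr none
  have hfin : Finite {b : β // Sum.inr b ∈ s} := by
    have hf : Set.Finite {b : β | (Sum.inr b : α ⊕ β) ∈ s} := by
      apply Set.Finite.preimage (Sum.inr_injective.injOn) (s.finite_toSet)
    exact hf.to_subtype
  refine ⟨B, inferInstance, p.map g, fun v => (hp v).trans ⟨?_, ?_⟩⟩
  · rintro ⟨t, ht⟩
    refine ⟨fun b => match b with | some b => t b.1 | none => 0, ?_⟩
    rw [Poly.map_apply, ← ht]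
    apply hs
    rintro (a | b) hb
    · rfl
    · simp only [Function.comp, g, hb, dif_pos]
      rfl
  · rintro ⟨t, ht⟩
    refine ⟨fun b => t (if h : (Sum.inr b : α ⊕ β) ∈ s then some ⟨b, h⟩ else none), ?_⟩
    rw [Poly.map_apply] at ht
    rw [← ht]
    apply hs
    rintro (a | b) hb
    · rfl
    · simp only [Function.comp, g, hb, dif_pos, Sum.elim_inr]

/-- bounded universal quantification -/
theorem forall_lt_dioph {α : Type} {S : Set (Option α → ℕ)} (dS : Dioph S)
    {f : (α → ℕ) → ℕ} (df : DiophFn f) :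
    Dioph {v : α → ℕ | ∀ k < f v, Option.elim' k v ∈ S} := by
  obtain ⟨β, hβ, p, hp⟩ := finite_dummies dS
  obtain ⟨P, hP1, hP2⟩ := poly_major p
  -- variables: `α`, then `β ⊕ Fin 3` for `a`, `u`, `c`, `y`
  let δ : Type := α ⊕ (β ⊕ Fin 3)
  let U : δ := Sum.inr (Sum.inr 0)
  let Cc : δ := Sum.inr (Sum.inr 1)
  let Y : δ := Sum.inr (Sum.inr 2)
  let gP : Option α ⊕ β → δ := fun x => match x with
    | Sum.inl none => Y
    | Sum.inl (some a) => Sum.inl a
    | Sum.inr _ => U
  let gp : Option α ⊕ β → δ := fun x => match x with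
    | Sum.inl none => Cc
    | Sum.inl (some a) => Sum.inl a
    | Sum.inr b => Sum.inr (Sum.inl b)
  have dU : DiophFn (fun w : δ → ℕ => w U) := proj_dioph U
  have dC : DiophFn (fun w : δ → ℕ => w Cc) := proj_dioph Cc
  have dY : DiophFn (fun w : δ → ℕ => w Y) := proj_dioph Y
  have dT : DiophFn (fun w : δ → ℕ => Nat.factorial (((P.map gP) w).natAbs + w Y + w U + 1)) :=
    factorial_dioph (add_dioph (add_dioph (add_dioph (abs_poly_dioph _) dY) dU) (cst 1))
  have dM : DiophFn (fun w : δ → ℕ =>
      1 + (w Cc + 1) * Nat.factorial (((P.map gP) w).natAbs + w Y + w U + 1)) :=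
    add_dioph (cst 1) (mul_dioph (add_dioph dC (cst 1)) dT)
  have d1 : Dioph {w : δ → ℕ |
      1 + (w Cc + 1) * Nat.factorial (((P.map gP) w).natAbs + w Y + w U + 1)
        = prodFn (w Y) (Nat.factorial (((P.map gP) w).natAbs + w Y + w U + 1))} :=
    eq_dioph dM (prodFn_dioph dY dT)
  have d2 : Dioph {w : δ → ℕ | ∀ i : β, w ∈ {w : δ → ℕ |
      1 + (w Cc + 1) * Nat.factorial (((P.map gP) w).natAbs + w Y + w U + 1)
        ∣ Nat.descFactorial (w (Sum.inr (Sum.inl i))) (w U + 1)}} :=
    forall_fin_dioph fun i => dvd_dioph dM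
      (descFactorial_dioph (proj_dioph _) (add_dioph dU (cst 1)))
  have d3 : Dioph {w : δ → ℕ |
      1 + (w Cc + 1) * Nat.factorial (((P.map gP) w).natAbs + w Y + w U + 1)
        ∣ ((p.map gp) w).natAbs} := dvd_dioph dM (abs_poly_dioph _)
  have d4 : Dioph {w : δ → ℕ | f (w ∘ Sum.inl) = w Y} :=
    eq_dioph (reindex_diophFn Sum.inl df) dY
  have d5 : Dioph {v : α → ℕ | ∃ x : β ⊕ Fin 3 → ℕ, Sum.elim v x ∈
      ((({w : δ → ℕ |
      1 + (w Cc + 1) * Nat.factorial (((P.map gP) w).natAbs + w Y + w U + 1)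
        = prodFn (w Y) (Nat.factorial (((P.map gP) w).natAbs + w Y + w U + 1))} ∩
      {w : δ → ℕ | ∀ i : β, w ∈ {w : δ → ℕ |
      1 + (w Cc + 1) * Nat.factorial (((P.map gP) w).natAbs + w Y + w U + 1)
        ∣ Nat.descFactorial (w (Sum.inr (Sum.inl i))) (w U + 1)}}) ∩
      {w : δ → ℕ |
      1 + (w Cc + 1) * Nat.factorial (((P.map gP) w).natAbs + w Y + w U + 1)
        ∣ ((p.map gp) w).natAbs}) ∩ {w : δ → ℕ | f (w ∘ Sum.inl) = w Y})} :=
    ex_dioph (inter (inter (inter d1 d2) d3) d4)
  have d6 : Dioph {v : α → ℕ | f v = 0} := eq_dioph df (cst 0)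
  refine Dioph.ext (union d6 d5) fun v => ?_
  rcases Nat.eq_zero_or_pos (f v) with h0 | hpos
  · constructor
    · intro _ k hk
      omega
    · intro _
      exact Or.inl h0
  · have hiff := bounded_forall_iff p P hP1 hP2 (f v) hpos v
    have hS : (∀ k < f v, Option.elim' k v ∈ S) ↔
        ∀ k < f v, ∃ t : β → ℕ, p (Sum.elim (Option.elim' k v) t) = 0 := by
      refine forall_congr' fun k => forall_congr' fun _ => ?_
      exact hp _
    show _ ↔ ∀ k < f v, Option.elim' k v ∈ S
    rw [hS, hiff]
    constructor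
    · rintro (h | ⟨x, ⟨⟨h1, h2⟩, h3⟩, h4⟩)
      · exact absurd h (by simpa using hpos.ne')
      · have hY : x (Sum.inr 2) = f v := h4.symm
        have eP : (P.map gP) (Sum.elim v x) =
            P (Sum.elim (Option.elim' (f v) v) fun _ => x (Sum.inr 0)) := by
          rw [Poly.map_apply]
          congr 1
          funext z
          rcases z with (_ | a) | b
          · exact hY
          · rfl
          · rfl
        have ep : (p.map gp) (Sum.elim v x) =
            p (Sum.elim (Option.elim' (x (Sum.inr 1)) v) fun i => x (Sum.inl i)) := by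
          rw [Poly.map_apply]
          congr 1
          funext z
          rcases z with (_ | a) | b <;> rfl
        simp only [Set.mem_ofPred_eq] at h1 h2 h3
        rw [eP] at h1 h2 h3
        rw [ep] at h3
        have e1 : (Sum.elim v x : δ → ℕ) Y = f v := hY
        rw [e1] at h1 h2 h3
        exact ⟨x (Sum.inr 0), x (Sum.inr 1), fun i => x (Sum.inl i), h1, h2, h3⟩
    · rintro ⟨u, c, a, h1, h2, h3⟩
      right
      refine ⟨Sum.elim a ![u, c, f v], ⟨⟨?_, ?_⟩, ?_⟩, ?_⟩
      all_goals
        have eP : (P.map gP) (Sum.elim v (Sum.elim a ![u, c, f v])) =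
            P (Sum.elim (Option.elim' (f v) v) fun _ => u) := by
          rw [Poly.map_apply]
          congr 1
          funext z
          rcases z with (_ | a) | b <;> rfl
        have ep : (p.map gp) (Sum.elim v (Sum.elim a ![u, c, f v])) =
            p (Sum.elim (Option.elim' c v) a) := by
          rw [Poly.map_apply]
          congr 1
          funext z
          rcases z with (_ | a) | b <;> rfl
      · simp only [Set.mem_ofPred_eq]
        rw [eP]
        exact h1
      · intro i
        simp only [Set.mem_ofPred_eq]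
        rw [eP]
        exact h2 i
      · simp only [Set.mem_ofPred_eq]
        rw [eP, ep]
        exact h3
      · rfl

end Pool.Agent.LibMRDP
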