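import Mathlib
import Pool.Agent.LibMRDP.Forall

set_option autoImplicit false

/-!
The graph of every partial recursive function is Diophantine, and there is a polynomial whose
solvability (as a function of one parameter) is not computable.
-/

namespace Pool.Agent.LibMRDP

open Dioph Nat.Partrec

section tools

variable {α : Type}

theorem ex_nat {R : (α → ℕ) → ℕ → Prop} (h : Dioph {w : Option α → ℕ | R (w ∘ some) (w none)}) :
    Dioph {v | ∃ x, R v x} :=
  Dioph.ext (ex1_dioph h) fun v => by
    constructor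
    · rintro ⟨x, hx⟩
      exact ⟨x, hx⟩
    · rintro ⟨x, hx⟩
      exact ⟨x, hx⟩

theorem all_lt {R : (α → ℕ) → ℕ → Prop} {f : (α → ℕ) → ℕ} (df : DiophFn f)
    (h : Dioph {w : Option α → ℕ | R (w ∘ some) (w none)}) :
    Dioph {v | ∀ k < f v, R v k} :=
  Dioph.ext (forall_lt_dioph h df) fun v => by
    constructor
    · intro H k hk
      exact H k hk
    · intro H k hk
      exact H k hk

/-- functions of the old variables after adding a new one -/
theorem up {f : (α → ℕ) → ℕ} (df : DiophFn f) : DiophFn fun w : Option α → ℕ => f (w ∘ some) :=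
  reindex_diophFn some df

theorem new : DiophFn fun w : Option α → ℕ => w none := proj_dioph none

theorem pair_dioph {f g : (α → ℕ) → ℕ} (df : DiophFn f) (dg : DiophFn g) :
    DiophFn fun v => Nat.pair (f v) (g v) := by
  have h : Dioph {w : Option α → ℕ |
      (f (w ∘ some) < g (w ∘ some) ∧ g (w ∘ some) * g (w ∘ some) + f (w ∘ some) = w none) ∨
      (g (w ∘ some) ≤ f (w ∘ some) ∧
        f (w ∘ some) * f (w ∘ some) + f (w ∘ some) + g (w ∘ some) = w none)} :=
    union (inter (lt_dioph (up df) (up dg))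
      (eq_dioph (add_dioph (mul_dioph (up dg) (up dg)) (up df)) new))
      (inter (le_dioph (up dg) (up df))
      (eq_dioph (add_dioph (add_dioph (mul_dioph (up df) (up df)) (up df)) (up dg)) new))
  refine Dioph.ext h fun w => ?_
  show _ ↔ Nat.pair (f (w ∘ some)) (g (w ∘ some)) = w none
  unfold Nat.pair
  show ((_ ∧ _) ∨ (_ ∧ _)) ↔ _
  split_ifs with h1
  · constructor
    · rintro (⟨_, h2⟩ | ⟨h2, _⟩)
      · exact h2
      · omega
    · intro h2
      exact Or.inl ⟨h1, h2⟩
  · constructor
    · rintro (⟨h2, _⟩ | ⟨_, h2⟩)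
      · omega
      · exact h2
    · intro h2
      exact Or.inr ⟨by omega, h2⟩

theorem unpair1_dioph {f : (α → ℕ) → ℕ} (df : DiophFn f) :
    DiophFn fun v => (Nat.unpair (f v)).1 := by
  have h : Dioph {w : Option α → ℕ | ∃ b, Nat.pair (w none) b = f (w ∘ some)} :=
    ex_nat (R := fun w b => Nat.pair (w none) b = f (w ∘ some))
      (eq_dioph (pair_dioph (up (proj_dioph none)) new) (up (up df)))
  refine Dioph.ext h fun w => ?_
  show (∃ b, Nat.pair (w none) b = f (w ∘ some)) ↔ (Nat.unpair (f (w ∘ some))).1 = w none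
  constructor
  · rintro ⟨b, hb⟩
    rw [← hb]; simp
  · intro h
    exact ⟨(Nat.unpair (f (w ∘ some))).2, by rw [← h]; simp⟩

theorem unpair2_dioph {f : (α → ℕ) → ℕ} (df : DiophFn f) :
    DiophFn fun v => (Nat.unpair (f v)).2 := by
  have h : Dioph {w : Option α → ℕ | ∃ b, Nat.pair b (w none) = f (w ∘ some)} :=
    ex_nat (R := fun w b => Nat.pair b (w none) = f (w ∘ some))
      (eq_dioph (pair_dioph new (up (proj_dioph none))) (up (up df)))
  refine Dioph.ext h fun w => ?_
  show (∃ b, Nat.pair b (w none) = f (w ∘ some)) ↔ (Nat.unpair (f (w ∘ some))).2 = w none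
  constructor
  · rintro ⟨b, hb⟩
    rw [← hb]; simp
  · intro h
    exact ⟨(Nat.unpair (f (w ∘ some))).1, by rw [← h]; simp⟩

theorem beta_dioph {f g : (α → ℕ) → ℕ} (df : DiophFn f) (dg : DiophFn g) :
    DiophFn fun v => Nat.beta (f v) (g v) :=
  mod_dioph (unpair1_dioph df)
    (add_dioph (mul_dioph (add_dioph dg (cst 1)) (unpair2_dioph df)) (cst 1))

end tools

/-- the graph of `f` is Diophantine -/
def GD (f : ℕ →. ℕ) : Prop := Dioph {v : Vector3 ℕ 2 | (v (Fin2.ofNat' 1)) ∈ f (v (Fin2.ofNat' 0))}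

theorem GD.app {f : ℕ →. ℕ} (h : GD f) {α : Type} {x y : (α → ℕ) → ℕ} (dx : DiophFn x)
    (dy : DiophFn y) : Dioph {v | y v ∈ f (x v)} :=
  dioph_comp2 (S := fun a b => b ∈ f a) dx dy h

/-- to prove `GD` it is enough to treat the two coordinate functions -/
theorem GD.mk' {f : ℕ →. ℕ}
    (h : ∀ {α : Type} {x y : (α → ℕ) → ℕ}, DiophFn x → DiophFn y → Dioph {v | y v ∈ f (x v)}) :
    GD f := h (proj_dioph _) (proj_dioph _)

theorem beta_seq (m : ℕ) (l : ℕ → ℕ) : ∃ s, ∀ k ≤ m, Nat.beta s k = l k := by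
  refine ⟨Nat.unbeta (List.ofFn fun i : Fin (m + 1) => l i), fun k hk => ?_⟩
  have h := Nat.beta_unbeta_coe (List.ofFn fun i : Fin (m + 1) => l i)
    ⟨k, by simp only [List.length_ofFn]; omega⟩
  simp only [Fin.getElem_fin, List.getElem_ofFn] at h
  exact h

theorem rec_seq {f g : ℕ →. ℕ} (a : ℕ) : ∀ m z,
    z ∈ (Nat.rec (f a) (fun y IH => (do let i ← IH; g (Nat.pair a (Nat.pair y i)) : Part ℕ)) m
      : Part ℕ) ↔
      ∃ s, Nat.beta s 0 ∈ f a ∧
        (∀ k < m, Nat.beta s (k + 1) ∈ g (Nat.pair a (Nat.pair k (Nat.beta s k)))) ∧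
        Nat.beta s m = z := by
  intro m z
  constructor
  · have key : ∀ m z, z ∈ (Nat.rec (f a)
        (fun y IH => (do let i ← IH; g (Nat.pair a (Nat.pair y i)) : Part ℕ)) m : Part ℕ) →
        ∃ l : ℕ → ℕ, l 0 ∈ f a ∧ (∀ k < m, l (k + 1) ∈ g (Nat.pair a (Nat.pair k (l k)))) ∧
          l m = z := by
      intro m
      induction m with
      | zero =>
        intro z hz
        exact ⟨fun _ => z, hz, by simp, rfl⟩
      | succ m ih =>
        intro z hz
        have hz' : ∃ i, i ∈ (Nat.rec (f a)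
            (fun y IH => (do let i ← IH; g (Nat.pair a (Nat.pair y i)) : Part ℕ)) m : Part ℕ) ∧
            z ∈ g (Nat.pair a (Nat.pair m i)) := by
          simpa [Part.mem_bind_iff] using hz
        obtain ⟨i, hi, hzi⟩ := hz'
        obtain ⟨l, h0, hstep, hm⟩ := ih i hi
        refine ⟨fun k => if k ≤ m then l k else z, by simpa using h0, ?_, by simp⟩
        intro k hk
        rcases Nat.lt_or_ge k m with h | h
        · have h1 : k ≤ m := h.le
          have h2 : k + 1 ≤ m := h
          simp only [h1, h2, if_true]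
          exact hstep k h
        · have h1 : k = m := by omega
          subst h1
          simp only [le_refl, if_true]
          have h2 : ¬ k + 1 ≤ k := by omega
          simp only [h2, if_false]
          rw [hm]
          exact hzi
    intro hz
    obtain ⟨l, h0, hstep, hm⟩ := key m z hz
    obtain ⟨s, hs⟩ := beta_seq m l
    refine ⟨s, ?_, ?_, ?_⟩
    · rw [hs 0 (Nat.zero_le _)]; exact h0
    · intro k hk
      rw [hs k hk.le, hs (k + 1) hk]
      exact hstep k hk
    · rw [hs m le_rfl, hm]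
  · rintro ⟨s, h0, hstep, hm⟩
    have key : ∀ k ≤ m, Nat.beta s k ∈ (Nat.rec (f a)
        (fun y IH => (do let i ← IH; g (Nat.pair a (Nat.pair y i)) : Part ℕ)) k : Part ℕ) := by
      intro k
      induction k with
      | zero => intro _; exact h0
      | succ k ih =>
        intro hk
        have h1 := ih (by omega)
        have h2 := hstep k hk
        exact Part.mem_bind_iff.2 ⟨_, h1, h2⟩
    rw [← hm]
    exact key m le_rfl

/-- The graph of every partial recursive function is Diophantine. -/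
theorem partrec_dioph {f : ℕ →. ℕ} (hf : Nat.Partrec f) : GD f := by
  induction hf with
  | zero =>
    apply GD.mk'
    intro α x y dx dy
    refine Dioph.ext (eq_dioph dy (cst 0)) fun v => ?_
    show y v = 0 ↔ y v ∈ Part.some 0
    exact Part.mem_some_iff.symm
  | succ =>
    apply GD.mk'
    intro α x y dx dy
    refine Dioph.ext (eq_dioph dy (add_dioph dx (cst 1))) fun v => ?_
    show y v = x v + 1 ↔ y v ∈ Part.some (x v + 1)
    exact Part.mem_some_iff.symm
  | left =>
    apply GD.mk'
    intro α x y dx dy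
    refine Dioph.ext (eq_dioph dy (unpair1_dioph dx)) fun v => ?_
    show y v = (Nat.unpair (x v)).1 ↔ y v ∈ Part.some (Nat.unpair (x v)).1
    exact Part.mem_some_iff.symm
  | right =>
    apply GD.mk'
    intro α x y dx dy
    refine Dioph.ext (eq_dioph dy (unpair2_dioph dx)) fun v => ?_
    show y v = (Nat.unpair (x v)).2 ↔ y v ∈ Part.some (Nat.unpair (x v)).2
    exact Part.mem_some_iff.symm
  | @pair f g _ _ hf hg =>
    apply GD.mk'
    intro α x y dx dy
    have h : Dioph {v : α → ℕ | ∃ b, ∃ c, (b ∈ f (x v) ∧ c ∈ g (x v)) ∧ Nat.pair b c = y v} := by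
      apply ex_nat (R := fun v b => ∃ c, (b ∈ f (x v) ∧ c ∈ g (x v)) ∧ Nat.pair b c = y v)
      apply ex_nat (R := fun (w : Option α → ℕ) c =>
        (w none ∈ f (x (w ∘ some)) ∧ c ∈ g (x (w ∘ some))) ∧ Nat.pair (w none) c = y (w ∘ some))
      exact inter (inter (hf.app (up (up dx)) (up new)) (hg.app (up (up dx)) new))
        (eq_dioph (pair_dioph (up new) new) (up (up dy)))
    refine Dioph.ext h fun v => ?_
    show (∃ b, ∃ c, (b ∈ f (x v) ∧ c ∈ g (x v)) ∧ Nat.pair b c = y v) ↔
      y v ∈ (Nat.pair <$> f (x v) <*> g (x v))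
    constructor
    · rintro ⟨b, c, ⟨hb, hc⟩, hbc⟩
      rw [← hbc]
      simp only [Seq.seq, Part.map_eq_map, Part.mem_bind_iff, Part.mem_map_iff]
      exact ⟨_, ⟨b, hb, rfl⟩, c, hc, rfl⟩
    · intro h
      simp only [Seq.seq, Part.map_eq_map, Part.mem_bind_iff, Part.mem_map_iff] at h
      obtain ⟨_, ⟨b, hb, rfl⟩, c, hc, h⟩ := h
      exact ⟨b, c, ⟨hb, hc⟩, h⟩
  | @comp f g _ _ hf hg =>
    apply GD.mk'
    intro α x y dx dy
    have h : Dioph {v : α → ℕ | ∃ b, b ∈ g (x v) ∧ y v ∈ f b} := by
      apply ex_nat (R := fun v b => b ∈ g (x v) ∧ y v ∈ f b)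
      exact inter (hg.app (up dx) new) (hf.app new (up dy))
    refine Dioph.ext h fun v => ?_
    exact (Part.mem_bind_iff (b := y v) (f := g (x v)) (g := f)).symm
  | @prec f g _ _ hf hg =>
    apply GD.mk'
    intro α x y dx dy
    have h : Dioph {v : α → ℕ | ∃ s, (Nat.beta s 0 ∈ f (Nat.unpair (x v)).1 ∧
        (∀ k < (Nat.unpair (x v)).2, Nat.beta s (k + 1) ∈
          g (Nat.pair (Nat.unpair (x v)).1 (Nat.pair k (Nat.beta s k))))) ∧
        Nat.beta s (Nat.unpair (x v)).2 = y v} := by
      apply ex_nat (R := fun v s => (Nat.beta s 0 ∈ f (Nat.unpair (x v)).1 ∧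
        (∀ k < (Nat.unpair (x v)).2, Nat.beta s (k + 1) ∈
          g (Nat.pair (Nat.unpair (x v)).1 (Nat.pair k (Nat.beta s k))))) ∧
        Nat.beta s (Nat.unpair (x v)).2 = y v)
      refine inter (inter ?_ ?_) ?_
      · exact hf.app (unpair1_dioph (up dx)) (beta_dioph new (cst 0))
      · apply all_lt (R := fun (w : Option α → ℕ) k => Nat.beta (w none) (k + 1) ∈
          g (Nat.pair (Nat.unpair (x (w ∘ some))).1 (Nat.pair k (Nat.beta (w none) k))))
          (unpair2_dioph (up dx))
        exact hg.app (pair_dioph (unpair1_dioph (up (up dx)))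
          (pair_dioph new (beta_dioph (up new) new)))
          (beta_dioph (up new) (add_dioph new (cst 1)))
      · exact eq_dioph (beta_dioph new (unpair2_dioph (up dx))) (up dy)
    refine Dioph.ext h fun v => ?_
    have := rec_seq (f := f) (g := g) (Nat.unpair (x v)).1 (Nat.unpair (x v)).2 (y v)
    refine Iff.trans ?_ this.symm
    constructor
    · rintro ⟨s, ⟨h1, h2⟩, h3⟩
      exact ⟨s, h1, h2, h3⟩
    · rintro ⟨s, h1, h2, h3⟩
      exact ⟨s, ⟨h1, h2⟩, h3⟩
  | @rfind f _ hf =>
    apply GD.mk'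
    intro α x y dx dy
    have h : Dioph {v : α → ℕ | 0 ∈ f (Nat.pair (x v) (y v)) ∧
        ∀ k < y v, ∃ b, b ∈ f (Nat.pair (x v) k) ∧ b ≠ 0} := by
      refine inter ?_ ?_
      · exact hf.app (pair_dioph dx dy) (cst 0)
      · apply all_lt (R := fun v k => ∃ b, b ∈ f (Nat.pair (x v) k) ∧ b ≠ 0) dy
        apply ex_nat (R := fun (w : Option α → ℕ) b =>
          b ∈ f (Nat.pair (x (w ∘ some)) (w none)) ∧ b ≠ 0)
        exact inter (hf.app (pair_dioph (up (up dx)) (up new)) new) (ne_dioph new (cst 0))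
    refine Dioph.ext h fun v => ?_
    refine Iff.trans ?_ (Nat.mem_rfind (n := y v)
      (p := fun n => (fun m => decide (m = 0)) <$> f (Nat.pair (x v) n))).symm
    constructor
    · rintro ⟨h1, h2⟩
      refine ⟨?_, ?_⟩
      · exact Part.mem_map_iff _ |>.2 ⟨0, h1, by simp⟩
      · intro k hk
        obtain ⟨b, hb, hb0⟩ := h2 k hk
        exact Part.mem_map_iff _ |>.2 ⟨b, hb, by simp [hb0]⟩
    · rintro ⟨h1, h2⟩
      refine ⟨?_, ?_⟩
      · obtain ⟨b, hb, hb0⟩ := (Part.mem_map_iff _).1 h1
        have : b = 0 := by simpa using hb0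
        rwa [this] at hb
      · intro k hk
        obtain ⟨b, hb, hb0⟩ := (Part.mem_map_iff _).1 (h2 hk)
        exact ⟨b, hb, by simpa using hb0⟩

/-- **DPRM, undecidability form**: there is an integer polynomial in variables indexed by `ℕ`,
for which no algorithm decides, given `a`, whether it has a natural zero with `x 0 = a`. -/
theorem exists_undecidable_poly :
    ∃ p : Poly ℕ, ¬ ComputablePred fun a : ℕ => ∃ x : ℕ → ℕ, x 0 = a ∧ p x = 0 := by
  classical
  -- a partial recursive function whose domain is not computable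
  let F : ℕ →. ℕ := fun a => Code.eval (Denumerable.ofNat Code a) 0
  have hF : Partrec F := Code.eval_part.comp (Computable.ofNat Code) (Computable.const 0)
  have hGD : GD F := partrec_dioph (Partrec.nat_iff.1 hF)
  have hD : Dioph {v : Unit → ℕ | ∃ y, y ∈ F (v ())} := by
    apply ex_nat (R := fun (v : Unit → ℕ) y => y ∈ F (v ()))
    exact hGD.app (up (proj_dioph ())) new
  obtain ⟨β, hβ, p, hp⟩ := finite_dummies hD
  obtain ⟨n, ⟨e⟩⟩ := Finite.exists_equiv_fin β
  let g : Unit ⊕ β → ℕ := fun x => match x with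
    | Sum.inl _ => 0
    | Sum.inr b => 1 + (e b).val
  refine ⟨p.map g, fun hcomp => ?_⟩
  have hset : ∀ a : ℕ, (∃ x : ℕ → ℕ, x 0 = a ∧ (p.map g) x = 0) ↔ (F a).Dom := by
    intro a
    have h1 := hp (fun _ => a)
    rw [Part.dom_iff_mem]
    refine Iff.trans ?_ h1.symm
    constructor
    · rintro ⟨x, hx0, hx⟩
      refine ⟨fun b => x (1 + (e b).val), ?_⟩
      rw [Poly.map_apply] at hx
      rw [← hx]
      congr 1
      funext z
      rcases z with _ | b
      · exact hx0.symm
      · rfl
    · rintro ⟨t, ht⟩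
      refine ⟨fun k => if k = 0 then a else if h : k - 1 < n then t (e.symm ⟨k - 1, h⟩) else 0,
        by simp, ?_⟩
      rw [Poly.map_apply, ← ht]
      congr 1
      funext z
      rcases z with _ | b
      · rfl
      · have h1 : (1 + (e b).val) - 1 < n := by have := (e b).2; omega
        have h2 : (⟨(1 + (e b).val) - 1, h1⟩ : Fin n) = e b := by
          apply Fin.ext
          simp
        show (if 1 + (e b).val = 0 then a else
          if h : 1 + (e b).val - 1 < n then t (e.symm ⟨1 + (e b).val - 1, h⟩) else 0) = t b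
        rw [if_neg (by omega), dif_pos h1, h2]
        simp
  have hcomp2 : ComputablePred fun a : ℕ => (F a).Dom := by
    have : (fun a : ℕ => ∃ x : ℕ → ℕ, x 0 = a ∧ (p.map g) x = 0) = fun a => (F a).Dom := by
      funext a
      exact propext (hset a)
    rwa [this] at hcomp
  apply ComputablePred.halting_problem 0
  obtain ⟨hdec, hc⟩ := hcomp2
  refine ⟨fun c => decidable_of_iff (F (Encodable.encode c)).Dom (by simp [F]), ?_⟩
  have := hc.comp (Computable.encode (α := Code))
  refine this.of_eq fun c => ?_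
  simp [F]

end Pool.Agent.LibMRDP
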